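import Pool.Agent.Q218.HB.Stm2

/-!
# Project HB of helper218, job LOA: a lower bound of the free density of states
-/

set_option autoImplicit false

open MeasureTheory Set Filter Topology

namespace Pool.Agent.Q130.HB

open Pool.Agent.Q218.HB

/-- the cosine transform of a Gaussian -/
theorem cos_gauss (d : ℝ) (hd : 0 < d) (E : ℝ) :
    ∫ q in Ioi (0 : ℝ), Real.cos (q * E) * Real.exp (-(d * q ^ 2)) =
      1 / 2 * (Real.sqrt (Real.pi / d) * Real.exp (-(E ^ 2) / (4 * d))) := by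
  have h1 := fourierIntegral_gaussian (b := (d : ℂ)) (by simpa using hd) (E : ℂ)
  have hint : Integrable fun x : ℝ => Complex.exp (Complex.I * E * x) * Complex.exp (-(d : ℂ) * x ^ 2) := by
    have h2 := GaussianFourier.integrable_cexp_neg_mul_sq_add_real_mul_I (b := (d : ℂ)) (by simpa using hd) 0
    have h3 := integrable_cexp_quadratic (b := (d : ℂ)) (by simpa using hd) (Complex.I * E) 0
    refine h3.congr (Eventually.of_forall fun x => ?_)
    simp only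
    rw [← Complex.exp_add]
    congr 1
    ring
  have h2 : ∫ x : ℝ, Real.cos (x * E) * Real.exp (-(d * x ^ 2)) =
      Real.sqrt (Real.pi / d) * Real.exp (-(E ^ 2) / (4 * d)) := by
    have h3 := (Complex.reCLM.integral_comp_comm hint).symm
    rw [h1] at h3
    have h4 : Complex.reCLM (((Real.pi : ℂ) / (d : ℂ)) ^ (1 / 2 : ℂ) *
        Complex.exp (-(E : ℂ) ^ 2 / (4 * (d : ℂ)))) =
        Real.sqrt (Real.pi / d) * Real.exp (-(E ^ 2) / (4 * d)) := by
      have h5 : ((Real.pi : ℂ) / (d : ℂ)) ^ (1 / 2 : ℂ) = ((Real.sqrt (Real.pi / d) : ℝ) : ℂ) := by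
        rw [Real.sqrt_eq_rpow, Complex.ofReal_cpow (by positivity)]
        push_cast
        rfl
      have h6 : Complex.exp (-(E : ℂ) ^ 2 / (4 * (d : ℂ))) =
          ((Real.exp (-(E ^ 2) / (4 * d)) : ℝ) : ℂ) := by
        push_cast
        rfl
      rw [h5, h6, ← Complex.ofReal_mul]
      exact Complex.ofReal_re _
    rw [h4] at h3
    rw [h3]
    congr 1
    ext x
    have h7 : Complex.exp (-(d : ℂ) * (x : ℂ) ^ 2) = ((Real.exp (-(d * x ^ 2)) : ℝ) : ℂ) := by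
      push_cast
      congr 1
      ring
    have h8 : Complex.exp (Complex.I * E * x) = Complex.exp (((x * E : ℝ) : ℂ) * Complex.I) := by
      congr 1
      push_cast
      ring
    rw [h7, h8]
    rw [Complex.reCLM_apply, Complex.re_mul_ofReal, Complex.exp_ofReal_mul_I_re]
  have h3 : ∫ x : ℝ, (fun y => Real.cos (y * E) * Real.exp (-(d * y ^ 2))) |x| =
      2 * ∫ x in Ioi (0 : ℝ), Real.cos (x * E) * Real.exp (-(d * x ^ 2)) :=
    integral_comp_abs (f := fun y => Real.cos (y * E) * Real.exp (-(d * y ^ 2)))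
  have h4 : ∫ x : ℝ, (fun y => Real.cos (y * E) * Real.exp (-(d * y ^ 2))) |x| =
      ∫ x : ℝ, Real.cos (x * E) * Real.exp (-(d * x ^ 2)) := by
    congr 1
    ext x
    simp only [sq_abs]
    congr 1
    rcases abs_choice x with h | h
    · rw [h]
    · rw [h, neg_mul, Real.cos_neg]
  rw [h4, h2] at h3
  linarith

theorem pow_diff (x y : ℂ) (r : ℝ) (hx : ‖x‖ ≤ r) (hy : ‖y‖ ≤ r) (k : ℕ) :
    ‖x ^ (k + 1) - y ^ (k + 1)‖ ≤ (k + 1) * r ^ k * ‖x - y‖ := by
  have hr : 0 ≤ r := (norm_nonneg x).trans hx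
  induction k with
  | zero => simp
  | succ k ih =>
    have h1 : x ^ (k + 1 + 1) - y ^ (k + 1 + 1) = x * (x ^ (k + 1) - y ^ (k + 1)) + (x - y) * y ^ (k + 1) := by
      ring
    rw [h1]
    refine (norm_add_le _ _).trans ?_
    rw [norm_mul, norm_mul, norm_pow]
    have h2 : ‖x‖ * ‖x ^ (k + 1) - y ^ (k + 1)‖ ≤ r * ((k + 1) * r ^ k * ‖x - y‖) :=
      mul_le_mul hx ih (norm_nonneg _) hr
    have h3 : ‖x - y‖ * ‖y‖ ^ (k + 1) ≤ ‖x - y‖ * r ^ (k + 1) :=
      mul_le_mul_of_nonneg_left (pow_le_pow_left₀ (norm_nonneg _) hy _) (norm_nonneg _)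
    push_cast
    calc _ ≤ r * ((k + 1) * r ^ k * ‖x - y‖) + ‖x - y‖ * r ^ (k + 1) := add_le_add h2 h3
      _ = (k + 1 + 1) * r ^ (k + 1) * ‖x - y‖ := by ring

/-- the integrand of `bc` -/
noncomputable def fb (q θ : ℝ) : ℂ := Complex.exp (2 * (q : ℂ) * Complex.I * (Real.cos θ : ℝ))

theorem bc_cont : Continuous bc := by
  unfold bc
  refine continuous_const.mul ?_
  refine intervalIntegral.continuous_parametric_intervalIntegral_of_continuous' ?_ _ _
  unfold Function.uncurry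
  fun_prop

/-- expansion of `bc` at zero -/
theorem bc_exp (Q : ℝ) (q : ℝ) (h0 : 0 ≤ q) (hQ : q ≤ Q) :
    ‖bc q - (1 - (q : ℂ) ^ 2)‖ ≤ 8 * Real.exp (2 * Q) * q ^ 3 := by
  have hpi := Real.pi_pos
  have hpi' : (Real.pi : ℂ) ≠ 0 := by exact_mod_cast Real.pi_ne_zero
  set g : ℝ → ℂ := fun θ => 1 + 2 * (q : ℂ) * Complex.I * (Real.cos θ : ℝ) +
    (2 * (q : ℂ) * Complex.I * (Real.cos θ : ℝ)) ^ 2 / 2 with hg
  have hgc : Continuous g := by
    rw [hg]
    fun_prop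
  have hfc : Continuous (fb q) := by
    unfold fb
    fun_prop
  have hgi : ∫ θ in (0 : ℝ)..(2 * Real.pi), g θ = 2 * Real.pi * (1 - (q : ℂ) ^ 2) := by
    have e1 : ∀ θ : ℝ, g θ = (1 : ℂ) + (2 * (q : ℂ) * Complex.I) * ((Real.cos θ : ℝ) : ℂ) +
        (-2 * (q : ℂ) ^ 2) * ((Real.cos θ ^ 2 : ℝ) : ℂ) := by
      intro θ
      rw [hg]
      simp only
      have hI := Complex.I_sq
      push_cast
      linear_combination (2 * (q : ℂ) ^ 2 * (Complex.cos (θ : ℂ)) ^ 2) * hI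
    simp only [e1]
    rw [intervalIntegral.integral_add, intervalIntegral.integral_add,
      intervalIntegral.integral_const_mul, intervalIntegral.integral_const_mul,
      intervalIntegral.integral_ofReal, intervalIntegral.integral_ofReal, integral_cos,
      integral_cos_sq]
    · simp
      ring
    · exact Continuous.intervalIntegrable (by fun_prop) _ _
    · exact Continuous.intervalIntegrable (by fun_prop) _ _
    · exact Continuous.intervalIntegrable (by fun_prop) _ _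
    · exact Continuous.intervalIntegrable (by fun_prop) _ _
  have h1 : bc q - (1 - (q : ℂ) ^ 2) = (((2 * Real.pi)⁻¹ : ℝ) : ℂ) *
      ∫ θ in (0 : ℝ)..(2 * Real.pi), (fb q θ - g θ) := by
    rw [intervalIntegral.integral_sub (hfc.intervalIntegrable _ _) (hgc.intervalIntegrable _ _), hgi,
      mul_sub]
    have e2 : (((2 * Real.pi)⁻¹ : ℝ) : ℂ) * (2 * Real.pi * (1 - (q : ℂ) ^ 2)) = 1 - (q : ℂ) ^ 2 := by
      push_cast
      field_simp
    rw [e2]
    rfl
  rw [h1, norm_mul, Complex.norm_real, Real.norm_eq_abs, abs_of_pos (by positivity)]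
  have h2 : ‖∫ θ in (0 : ℝ)..(2 * Real.pi), (fb q θ - g θ)‖ ≤
      (8 * Real.exp (2 * Q) * q ^ 3) * |2 * Real.pi - 0| := by
    refine intervalIntegral.norm_integral_le_of_norm_le_const fun θ _ => ?_
    have h3 := Complex.norm_exp_sub_sum_le_norm_mul_exp (2 * (q : ℂ) * Complex.I * (Real.cos θ : ℝ)) 3
    have h4 : ‖2 * (q : ℂ) * Complex.I * (Real.cos θ : ℝ)‖ ≤ 2 * q := by
      rw [norm_mul, norm_mul, norm_mul, Complex.norm_I, Complex.norm_real, Complex.norm_real,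
        Real.norm_eq_abs, Real.norm_eq_abs, abs_of_nonneg h0, RCLike.norm_ofNat, mul_one]
      exact mul_le_of_le_one_right (by linarith) (Real.abs_cos_le_one θ)
    have h5 : ∑ m ∈ Finset.range 3, (2 * (q : ℂ) * Complex.I * (Real.cos θ : ℝ)) ^ m / (m.factorial : ℂ) =
        g θ := by
      rw [hg, Finset.sum_range_succ, Finset.sum_range_succ, Finset.sum_range_succ]
      simp [Nat.factorial]
    rw [h5] at h3
    refine h3.trans ?_
    calc ‖2 * (q : ℂ) * Complex.I * (Real.cos θ : ℝ)‖ ^ 3 *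
          Real.exp ‖2 * (q : ℂ) * Complex.I * (Real.cos θ : ℝ)‖ ≤ (2 * q) ^ 3 * Real.exp (2 * Q) := by
          gcongr
          linarith
      _ = 8 * Real.exp (2 * Q) * q ^ 3 := by ring
  calc (2 * Real.pi)⁻¹ * ‖∫ θ in (0 : ℝ)..(2 * Real.pi), (fb q θ - g θ)‖
      ≤ (2 * Real.pi)⁻¹ * ((8 * Real.exp (2 * Q) * q ^ 3) * |2 * Real.pi - 0|) :=
        mul_le_mul_of_nonneg_left h2 (by positivity)
    _ = 8 * Real.exp (2 * Q) * q ^ 3 := by
        rw [sub_zero, abs_of_pos (by positivity)]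
        field_simp

/-- `bc` against the Gaussian near zero -/
theorem bc_gauss (Q : ℝ) (q : ℝ) (h0 : 0 ≤ q) (hQ : q ≤ Q) :
    ‖bc q - ((Real.exp (-(q ^ 2)) : ℝ) : ℂ)‖ ≤
      (8 * Real.exp (2 * Q) + Q * Real.exp (Q ^ 2)) * q ^ 3 := by
  have h1 := bc_exp Q q h0 hQ
  have h2 := Complex.norm_exp_sub_sum_le_norm_mul_exp (-((q ^ 2 : ℝ) : ℂ)) 2
  have h3 : ∑ m ∈ Finset.range 2, (-((q ^ 2 : ℝ) : ℂ)) ^ m / (m.factorial : ℂ) = 1 - (q : ℂ) ^ 2 := by
    rw [Finset.sum_range_succ, Finset.sum_range_succ]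
    simp [Nat.factorial]
    ring
  rw [h3, norm_neg, Complex.norm_real, Real.norm_eq_abs, abs_of_nonneg (by positivity)] at h2
  have h4 : Complex.exp (-((q ^ 2 : ℝ) : ℂ)) = ((Real.exp (-(q ^ 2)) : ℝ) : ℂ) := by
    push_cast
    rfl
  rw [h4] at h2
  have h5 : (q ^ 2) ^ 2 * Real.exp (q ^ 2) ≤ Q * Real.exp (Q ^ 2) * q ^ 3 := by
    have h6 : Real.exp (q ^ 2) ≤ Real.exp (Q ^ 2) := Real.exp_le_exp.2 (by gcongr)
    have h7 : 0 ≤ Q := h0.trans hQ
    calc (q ^ 2) ^ 2 * Real.exp (q ^ 2) = q * q ^ 3 * Real.exp (q ^ 2) := by ring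
      _ ≤ Q * q ^ 3 * Real.exp (Q ^ 2) := by gcongr
      _ = Q * Real.exp (Q ^ 2) * q ^ 3 := by ring
  calc ‖bc q - ((Real.exp (-(q ^ 2)) : ℝ) : ℂ)‖
      = ‖(bc q - (1 - (q : ℂ) ^ 2)) - (((Real.exp (-(q ^ 2)) : ℝ) : ℂ) - (1 - (q : ℂ) ^ 2))‖ := by
        congr 1; ring
    _ ≤ ‖bc q - (1 - (q : ℂ) ^ 2)‖ + ‖((Real.exp (-(q ^ 2)) : ℝ) : ℂ) - (1 - (q : ℂ) ^ 2)‖ :=
        norm_sub_le _ _
    _ ≤ 8 * Real.exp (2 * Q) * q ^ 3 + Q * Real.exp (Q ^ 2) * q ^ 3 := add_le_add h1 (h2.trans h5)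
    _ = _ := by ring

/-- the pointwise comparison -/
theorem ptw {c q0 ρ : ℝ} (hc : 0 < c) (hq0 : 0 < q0) (hρ : 0 ≤ ρ)
    (h1 : ∀ q : ℝ, 0 ≤ q → q ≤ q0 → ‖bc q‖ ≤ Real.exp (-(c * q ^ 2)))
    (h2 : ∀ q : ℝ, q0 ≤ q → ‖bc q‖ ≤ ρ) :
    ∃ a K : ℝ, 0 < a ∧ 0 < K ∧ ∀ (d : ℕ) (E η q : ℝ), 2 ≤ d → 0 ≤ η → η ≤ 1 → 0 < q →
      ‖(Real.exp (-(η * q)) : ℂ) * Complex.exp ((q * E : ℝ) * Complex.I) * bc q ^ d -
        Complex.exp ((q * E : ℝ) * Complex.I) * ((Real.exp (-(d * q ^ 2)) : ℝ) : ℂ)‖ ≤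
        K * (q * Real.exp (-(a * d) * q ^ 2)) + ρ ^ d * Real.exp (-η * q) := by
  set c' : ℝ := min c 1 with hc'
  have hc'0 : 0 < c' := lt_min hc one_pos
  have hc'1 : c' ≤ 1 := min_le_right _ _
  have hc'c : c' ≤ c := min_le_left _ _
  set M : ℝ := 8 * Real.exp (2 * q0) + q0 * Real.exp (q0 ^ 2) with hM
  have hM0 : 0 < M := by positivity
  refine ⟨c' / 4, M * (4 / c') + 1 / q0 + 1, by positivity, by positivity, ?_⟩
  intro d E η q hd hη hη1 hq
  have hd0 : (0 : ℝ) < d := by positivity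
  have hE : ‖Complex.exp ((q * E : ℝ) * Complex.I)‖ = 1 := Complex.norm_exp_ofReal_mul_I _
  have hη0 : ‖(Real.exp (-(η * q)) : ℂ)‖ = Real.exp (-(η * q)) := by
    rw [Complex.norm_real, Real.norm_eq_abs, abs_of_pos (Real.exp_pos _)]
  have hη' : Real.exp (-(η * q)) ≤ 1 := Real.exp_le_one_iff.2 (by nlinarith)
  have hg : ((Real.exp (-(d * q ^ 2)) : ℝ) : ℂ) = ((Real.exp (-(q ^ 2)) : ℝ) : ℂ) ^ d := by
    rw [← Complex.ofReal_pow, ← Real.exp_nat_mul]
    congr 2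
    ring
  have hsmall : Real.exp (-(d * q ^ 2)) ≤ Real.exp (-(c' / 4 * d) * q ^ 2) := by
    apply Real.exp_le_exp.2
    have : c' / 4 * d * q ^ 2 ≤ 1 * d * q ^ 2 := by gcongr; linarith
    linarith
  -- the difference of the powers
  have hD : Real.exp (-(η * q)) * ‖bc q ^ d - ((Real.exp (-(d * q ^ 2)) : ℝ) : ℂ)‖ ≤
      (M * (4 / c') + 1 / q0) * (q * Real.exp (-(c' / 4 * d) * q ^ 2)) +
        ρ ^ d * Real.exp (-η * q) := by
    rcases le_total q q0 with hqq | hqq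
    · have e1 := bc_gauss q0 q hq.le hqq
      have hb : ‖bc q‖ ≤ Real.exp (-(c' * q ^ 2)) := (h1 q hq.le hqq).trans
        (Real.exp_le_exp.2 (by nlinarith [sq_nonneg q]))
      have hg' : ‖((Real.exp (-(q ^ 2)) : ℝ) : ℂ)‖ ≤ Real.exp (-(c' * q ^ 2)) := by
        rw [Complex.norm_real, Real.norm_eq_abs, abs_of_pos (Real.exp_pos _)]
        exact Real.exp_le_exp.2 (by nlinarith [sq_nonneg q])
      obtain ⟨k, rfl⟩ : ∃ k, d = k + 1 := ⟨d - 1, by omega⟩
      have e2 := pow_diff (bc q) ((Real.exp (-(q ^ 2)) : ℝ) : ℂ) _ hb hg' k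
      rw [← hg] at e2
      have hk : ((k + 1 : ℕ) : ℝ) / 2 ≤ k := by
        have : (1 : ℝ) ≤ k := by exact_mod_cast (by omega : 1 ≤ k)
        push_cast
        linarith
      have e3 : Real.exp (-(c' * q ^ 2)) ^ k ≤ Real.exp (-(c' / 2 * ((k + 1 : ℕ) : ℝ) * q ^ 2)) := by
        rw [← Real.exp_nat_mul]
        apply Real.exp_le_exp.2
        have h5 : ((k + 1 : ℕ) : ℝ) / 2 * (c' * q ^ 2) ≤ k * (c' * q ^ 2) := by gcongr
        linarith
      have e4 : ((k + 1 : ℕ) : ℝ) * q ^ 2 * Real.exp (-(c' / 4 * ((k + 1 : ℕ) : ℝ) * q ^ 2)) ≤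
          4 / c' := by
        set z : ℝ := c' / 4 * ((k + 1 : ℕ) : ℝ) * q ^ 2 with hz
        have h6 : z ≤ Real.exp z := by linarith [Real.add_one_le_exp z]
        have h7 : z * Real.exp (-z) ≤ 1 := by
          rw [Real.exp_neg, ← div_eq_mul_inv, div_le_one (Real.exp_pos _)]
          exact h6
        have h8 : ((k + 1 : ℕ) : ℝ) * q ^ 2 = 4 / c' * z := by
          rw [hz]
          field_simp
        rw [h8, mul_assoc]
        exact mul_le_of_le_one_right (by positivity) h7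
      have e5 : Real.exp (-(c' / 2 * ((k + 1 : ℕ) : ℝ) * q ^ 2)) =
          Real.exp (-(c' / 4 * ((k + 1 : ℕ) : ℝ) * q ^ 2)) *
            Real.exp (-(c' / 4 * ((k + 1 : ℕ) : ℝ)) * q ^ 2) := by
        rw [← Real.exp_add]
        congr 1
        ring
      have hkk : ((k : ℝ) + 1) = ((k + 1 : ℕ) : ℝ) := by push_cast; rfl
      rw [hkk] at e2
      have e6 : ‖bc q ^ (k + 1) - ((Real.exp (-(((k + 1 : ℕ) : ℝ) * q ^ 2)) : ℝ) : ℂ)‖ ≤
          M * (4 / c') * (q * Real.exp (-(c' / 4 * ((k + 1 : ℕ) : ℝ)) * q ^ 2)) := by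
        calc _ ≤ ((k + 1 : ℕ) : ℝ) * Real.exp (-(c' * q ^ 2)) ^ k *
              ‖bc q - ((Real.exp (-(q ^ 2)) : ℝ) : ℂ)‖ := e2
          _ ≤ ((k + 1 : ℕ) : ℝ) * Real.exp (-(c' / 2 * ((k + 1 : ℕ) : ℝ) * q ^ 2)) * (M * q ^ 3) := by
              gcongr
          _ = M * (((k + 1 : ℕ) : ℝ) * q ^ 2 * Real.exp (-(c' / 4 * ((k + 1 : ℕ) : ℝ) * q ^ 2))) *
              (q * Real.exp (-(c' / 4 * ((k + 1 : ℕ) : ℝ)) * q ^ 2)) := by
              rw [e5]
              ring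
          _ ≤ M * (4 / c') * (q * Real.exp (-(c' / 4 * ((k + 1 : ℕ) : ℝ)) * q ^ 2)) := by
              gcongr
      have e7 : 0 ≤ 1 / q0 * (q * Real.exp (-(c' / 4 * ((k + 1 : ℕ) : ℝ)) * q ^ 2)) := by positivity
      have e8 : 0 ≤ ρ ^ (k + 1) * Real.exp (-η * q) := by positivity
      calc _ ≤ 1 * ‖bc q ^ (k + 1) - ((Real.exp (-(((k + 1 : ℕ) : ℝ) * q ^ 2)) : ℝ) : ℂ)‖ :=
            mul_le_mul_of_nonneg_right hη' (norm_nonneg _)
        _ ≤ M * (4 / c') * (q * Real.exp (-(c' / 4 * ((k + 1 : ℕ) : ℝ)) * q ^ 2)) := by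
            rw [one_mul]
            exact e6
        _ ≤ _ := by linarith
    · have e1 : ‖bc q ^ d - ((Real.exp (-(d * q ^ 2)) : ℝ) : ℂ)‖ ≤ ρ ^ d + Real.exp (-(d * q ^ 2)) := by
        refine (norm_sub_le _ _).trans (add_le_add ?_ (le_of_eq ?_))
        · rw [norm_pow]
          exact pow_le_pow_left₀ (norm_nonneg _) (h2 q hqq) _
        · rw [Complex.norm_real, Real.norm_eq_abs, abs_of_pos (Real.exp_pos _)]
      have e2 : Real.exp (-(d * q ^ 2)) ≤ 1 / q0 * (q * Real.exp (-(c' / 4 * d) * q ^ 2)) := by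
        calc Real.exp (-(d * q ^ 2)) ≤ 1 * Real.exp (-(c' / 4 * d) * q ^ 2) := by
              rw [one_mul]
              exact hsmall
          _ ≤ (q / q0) * Real.exp (-(c' / 4 * d) * q ^ 2) := by
              refine mul_le_mul_of_nonneg_right ?_ (Real.exp_pos _).le
              rw [le_div_iff₀ hq0]
              linarith
          _ = _ := by ring
      have e3 : 0 ≤ M * (4 / c') * (q * Real.exp (-(c' / 4 * d) * q ^ 2)) := by positivity
      calc Real.exp (-(η * q)) * ‖bc q ^ d - ((Real.exp (-(d * q ^ 2)) : ℝ) : ℂ)‖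
          ≤ Real.exp (-(η * q)) * (ρ ^ d + Real.exp (-(d * q ^ 2))) :=
            mul_le_mul_of_nonneg_left e1 (Real.exp_pos _).le
        _ = ρ ^ d * Real.exp (-η * q) + Real.exp (-(η * q)) * Real.exp (-(d * q ^ 2)) := by
            rw [neg_mul]
            ring
        _ ≤ ρ ^ d * Real.exp (-η * q) + 1 * Real.exp (-(d * q ^ 2)) := by gcongr
        _ ≤ _ := by linarith
  have hfac : (Real.exp (-(η * q)) : ℂ) * Complex.exp ((q * E : ℝ) * Complex.I) * bc q ^ d -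
        Complex.exp ((q * E : ℝ) * Complex.I) * ((Real.exp (-(d * q ^ 2)) : ℝ) : ℂ) =
      Complex.exp ((q * E : ℝ) * Complex.I) * ((Real.exp (-(η * q)) : ℂ) *
        (bc q ^ d - ((Real.exp (-(d * q ^ 2)) : ℝ) : ℂ)) +
        ((Real.exp (-(η * q)) : ℂ) - 1) * ((Real.exp (-(d * q ^ 2)) : ℝ) : ℂ)) := by
    ring
  rw [hfac, norm_mul, hE, one_mul]
  refine (norm_add_le _ _).trans ?_
  rw [norm_mul, norm_mul, hη0]
  have e9 : ‖(Real.exp (-(η * q)) : ℂ) - 1‖ ≤ q := by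
    rw [← Complex.ofReal_one, ← Complex.ofReal_sub, Complex.norm_real,
      Real.norm_eq_abs, abs_sub_comm, abs_of_nonneg (by linarith)]
    have := Real.add_one_le_exp (-(η * q))
    nlinarith
  have e10 : ‖((Real.exp (-(d * q ^ 2)) : ℝ) : ℂ)‖ ≤ Real.exp (-(c' / 4 * d) * q ^ 2) := by
    rw [Complex.norm_real, Real.norm_eq_abs, abs_of_pos (Real.exp_pos _)]
    exact hsmall
  have e11 : ‖(Real.exp (-(η * q)) : ℂ) - 1‖ * ‖((Real.exp (-(d * q ^ 2)) : ℝ) : ℂ)‖ ≤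
      q * Real.exp (-(c' / 4 * d) * q ^ 2) := mul_le_mul e9 e10 (norm_nonneg _) hq.le
  calc _ ≤ (M * (4 / c') + 1 / q0) * (q * Real.exp (-(c' / 4 * d) * q ^ 2)) +
        ρ ^ d * Real.exp (-η * q) + q * Real.exp (-(c' / 4 * d) * q ^ 2) := add_le_add hD e11
    _ = _ := by ring

theorem int_mul_gauss (b : ℝ) (hb : 0 < b) :
    ∫ q in Ioi (0 : ℝ), q * Real.exp (-b * q ^ 2) = 1 / (2 * b) := by
  have h1 := integral_mul_cexp_neg_mul_sq (b := (b : ℂ)) (by simpa using hb)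
  have h2 : ∫ r in Ioi (0 : ℝ), (r : ℂ) * Complex.exp (-(b : ℂ) * (r : ℂ) ^ 2) =
      ((∫ q in Ioi (0 : ℝ), q * Real.exp (-b * q ^ 2) : ℝ) : ℂ) := by
    rw [← integral_complex_ofReal]
    congr 1
    ext x
    push_cast
    rfl
  rw [h2] at h1
  have h3 : ((∫ q in Ioi (0 : ℝ), q * Real.exp (-b * q ^ 2) : ℝ) : ℂ) = ((1 / (2 * b) : ℝ) : ℂ) := by
    rw [h1]
    push_cast
    rw [one_div]
  exact_mod_cast h3

/-- **JOB LOA.** -/
theorem loa : S_LOA := by
  intro hB κ hκ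
  obtain ⟨c, q0, ρ, hc, hq0, hρ, hρ1, h1, h2⟩ := hB
  obtain ⟨a, K, ha, hK, hpt⟩ := ptw hc hq0 hρ h1 h2
  have hpi := Real.pi_pos
  set c1 : ℝ := Real.sqrt Real.pi / 4 * Real.exp (-(κ ^ 2 / 4)) with hc1
  have hc10 : 0 < c1 := by positivity
  have hev : ∀ᶠ d : ℕ in atTop, K / (2 * a) / Real.sqrt d + d * ρ ^ d < c1 := by
    have t1 : Tendsto (fun d : ℕ => K / (2 * a) / Real.sqrt d) atTop (𝓝 0) := by
      refine Tendsto.div_atTop tendsto_const_nhds ?_
      exact Real.tendsto_sqrt_atTop.comp tendsto_natCast_atTop_atTop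
    have t2 : Tendsto (fun d : ℕ => (d : ℝ) * ρ ^ d) atTop (𝓝 0) :=
      tendsto_self_mul_const_pow_of_lt_one hρ hρ1
    have t3 := t1.add t2
    rw [add_zero] at t3
    exact t3.eventually_lt_const hc10
  obtain ⟨d0, hd0⟩ := eventually_atTop.1 hev
  refine ⟨c1, max d0 2, hc10, ?_⟩
  intro d E η hd _ hE hη hη1
  have hdd : d0 ≤ d := (le_max_left _ _).trans hd
  have hd2 : 2 ≤ d := (le_max_right _ _).trans hd
  have hdpos : (0 : ℝ) < d := by positivity
  have hs : 0 < Real.sqrt d := Real.sqrt_pos.2 hdpos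
  have hη0 : 0 < η := lt_of_lt_of_le (by positivity) hη
  have hss : Real.sqrt d * Real.sqrt d = d := Real.mul_self_sqrt hdpos.le
  set F : ℝ → ℂ := fun q => (Real.exp (-(η * q)) : ℂ) * Complex.exp ((q * E : ℝ) * Complex.I) *
    bc q ^ d with hF
  set G0 : ℝ → ℂ := fun q => Complex.exp ((q * E : ℝ) * Complex.I) *
    ((Real.exp (-(d * q ^ 2)) : ℝ) : ℂ) with hG0
  set B : ℝ → ℝ := fun q => K * (q * Real.exp (-(a * d) * q ^ 2)) + ρ ^ d * Real.exp (-η * q)
    with hBdef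
  have had : 0 < a * d := by positivity
  have hi1 : IntegrableOn (fun q : ℝ => q * Real.exp (-(a * d) * q ^ 2)) (Ioi 0) :=
    (integrable_mul_exp_neg_mul_sq had).integrableOn
  have hi2 : IntegrableOn (fun q : ℝ => Real.exp (-η * q)) (Ioi 0) := exp_neg_integrableOn_Ioi 0 hη0
  have hBi : IntegrableOn B (Ioi 0) := (hi1.const_mul K).add (hi2.const_mul (ρ ^ d))
  have hFc : Continuous F := by
    rw [hF]
    refine Continuous.mul ?_ (bc_cont.pow d)
    fun_prop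
  have hGc : Continuous G0 := by
    rw [hG0]
    fun_prop
  have hGi : IntegrableOn G0 (Ioi 0) := by
    refine ((integrable_exp_neg_mul_sq hdpos).integrableOn).mono'
      hGc.aestronglyMeasurable (Eventually.of_forall fun q => ?_)
    rw [hG0]
    simp only
    rw [norm_mul, Complex.norm_exp_ofReal_mul_I, one_mul, Complex.norm_real, Real.norm_eq_abs,
      abs_of_pos (Real.exp_pos _), neg_mul]
  have hdi : IntegrableOn (fun q => F q - G0 q) (Ioi 0) := by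
    refine hBi.mono' (hFc.sub hGc).aestronglyMeasurable ?_
    filter_upwards [ae_restrict_mem measurableSet_Ioi] with q hq
    exact hpt d E η q hd2 hη0.le hη1 hq
  have hFi : ∫ q in Ioi (0 : ℝ), F q = (∫ q in Ioi (0 : ℝ), (F q - G0 q)) + ∫ q in Ioi (0 : ℝ), G0 q := by
    rw [← integral_add hdi hGi]
    congr 1
    ext q
    ring
  have hnorm : ‖∫ q in Ioi (0 : ℝ), (F q - G0 q)‖ ≤ ∫ q in Ioi (0 : ℝ), B q := by
    refine norm_integral_le_of_norm_le hBi ?_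
    filter_upwards [ae_restrict_mem measurableSet_Ioi] with q hq
    exact hpt d E η q hd2 hη0.le hη1 hq
  have hBv : ∫ q in Ioi (0 : ℝ), B q = K * (1 / (2 * (a * d))) + ρ ^ d * (1 / η) := by
    rw [hBdef]
    rw [integral_add (hi1.const_mul K) (hi2.const_mul (ρ ^ d)), integral_const_mul,
      integral_const_mul, int_mul_gauss _ had, integral_exp_mul_Ioi (by linarith)]
    simp
  have hGv : (∫ q in Ioi (0 : ℝ), G0 q).re =
      1 / 2 * (Real.sqrt (Real.pi / d) * Real.exp (-(E ^ 2) / (4 * d))) := by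
    rw [← cos_gauss d hdpos E]
    have h3 := (Complex.reCLM.integral_comp_comm hGi).symm
    rw [Complex.reCLM_apply] at h3
    rw [h3]
    congr 1
    ext q
    rw [hG0]
    simp only
    rw [Complex.reCLM_apply, Complex.re_mul_ofReal, Complex.exp_ofReal_mul_I_re]
  have hlow : 2 * c1 / Real.sqrt d ≤ (∫ q in Ioi (0 : ℝ), G0 q).re := by
    rw [hGv, Real.sqrt_div hpi.le]
    have h3 : E ^ 2 ≤ κ ^ 2 * d := by
      have h4 : |E| ^ 2 ≤ (κ * Real.sqrt d) ^ 2 := pow_le_pow_left₀ (abs_nonneg _) hE 2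
      rw [sq_abs, mul_pow, Real.sq_sqrt hdpos.le] at h4
      exact h4
    have h5 : Real.exp (-(κ ^ 2 / 4)) ≤ Real.exp (-(E ^ 2) / (4 * d)) := by
      apply Real.exp_le_exp.2
      rw [neg_div, neg_le_neg_iff, div_le_div_iff₀ (by positivity) (by norm_num)]
      nlinarith
    calc 2 * c1 / Real.sqrt d = 1 / 2 * (Real.sqrt Real.pi / Real.sqrt d * Real.exp (-(κ ^ 2 / 4))) := by
          rw [hc1]
          ring
      _ ≤ 1 / 2 * (Real.sqrt Real.pi / Real.sqrt d * Real.exp (-(E ^ 2) / (4 * d))) := by gcongr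
  have hup : ∫ q in Ioi (0 : ℝ), B q ≤ c1 / Real.sqrt d := by
    rw [hBv]
    have h3 := (hd0 d hdd).le
    have h4 : 1 / η ≤ Real.sqrt d := by
      rw [div_le_iff₀ hη0]
      rw [div_le_iff₀ hs] at hη
      linarith
    have h5 : ρ ^ d * (1 / η) ≤ ρ ^ d * Real.sqrt d := mul_le_mul_of_nonneg_left h4 (by positivity)
    have h6 : K * (1 / (2 * (a * d))) + ρ ^ d * Real.sqrt d =
        (K / (2 * a) / Real.sqrt d + d * ρ ^ d) / Real.sqrt d := by
      rw [add_div, div_div, div_div, hss]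
      congr 1
      · field_simp
      · rw [eq_div_iff hs.ne', mul_assoc, hss]
        ring
    calc _ ≤ K * (1 / (2 * (a * d))) + ρ ^ d * Real.sqrt d := by linarith
      _ = (K / (2 * a) / Real.sqrt d + d * ρ ^ d) / Real.sqrt d := h6
      _ ≤ c1 / Real.sqrt d := by gcongr
  have hre : -‖∫ q in Ioi (0 : ℝ), (F q - G0 q)‖ ≤ (∫ q in Ioi (0 : ℝ), (F q - G0 q)).re :=
    (abs_le.1 (Complex.abs_re_le_norm _)).1
  show c1 / Real.sqrt d ≤ (∫ q in Ioi (0 : ℝ), F q).re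
  rw [hFi, Complex.add_re]
  have h7 : 2 * c1 / Real.sqrt d = c1 / Real.sqrt d + c1 / Real.sqrt d := by ring
  linarith

end Pool.Agent.Q130.HB
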